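import Pool.Agent.helper12.DD.Spec2

/-! CLS: Clifford's formula. -/

set_option autoImplicit false

open Pool.Agent.helper49.Blk

namespace Pool.Agent.DD

theorem CLS_scalar (H : Type) [Group H] (V : Type) [AddCommGroup V] [Module ℂ V]
    [FiniteDimensional ℂ V] (ρ : Representation ℂ H V) (hirr : ρ.IsIrreducible) (K : Finset H)
    (hK : ∀ x h : H, h ∈ K ↔ x * h * x⁻¹ ∈ K) :
    ∃ c : ℂ, (∑ h ∈ K, ρ h : Module.End ℂ V) = c • (1 : Module.End ℂ V) ∧
      ∑ h ∈ K, ρ.character h = c * ρ.character 1 := by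
  classical
  have hcomm : ∀ x : H, (∑ h ∈ K, ρ h : Module.End ℂ V) ∘ₗ ρ x =
      ρ x ∘ₗ (∑ h ∈ K, ρ h : Module.End ℂ V) := by
    intro x
    show (∑ h ∈ K, ρ h : Module.End ℂ V) * ρ x = ρ x * (∑ h ∈ K, ρ h : Module.End ℂ V)
    rw [Finset.sum_mul, Finset.mul_sum]
    symm
    refine Finset.sum_equiv (MulAut.conj x).toEquiv (fun h => ?_) (fun h _ => ?_)
    · simpa using hK x h
    · rw [← map_mul, ← map_mul]
      simp
  have hsch := Representation.IsIrreducible.algebraMap_intertwiningMap_bijective_of_isAlgClosed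
    (ρ := ρ)
  obtain ⟨c, hc⟩ := hsch.2 ⟨(∑ h ∈ K, ρ h : Module.End ℂ V), hcomm⟩
  have hc' : (∑ h ∈ K, ρ h : Module.End ℂ V) = c • (1 : Module.End ℂ V) := by
    have h3 := congrArg Representation.IntertwiningMap.toLinearMap hc
    rw [Representation.IntertwiningMap.algebraMap_apply] at h3
    exact h3.symm
  refine ⟨c, hc', ?_⟩
  have h4 := congrArg (LinearMap.trace ℂ V) hc'
  rw [map_sum, map_smul, smul_eq_mul] at h4
  have h5 : ρ.character 1 = LinearMap.trace ℂ V (1 : Module.End ℂ V) := by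
    unfold Representation.character
    rw [map_one]
  rw [h5, ← h4]
  rfl

theorem CLS : CLS_stmt := by
  classical
  intro A B _ _ _ _ j hj hnor φ hφ ψ hψ hovr Z hZ
  obtain ⟨V, _, _, _, ρ, hρ, rfl⟩ := hφ
  obtain ⟨U, _, _, _, σ, hσ, rfl⟩ := hψ
  have : Fintype A := Fintype.ofFinite A
  have : Fintype B := Fintype.ofFinite B
  -- a nonzero intertwining map
  let ρA : Representation ℂ A V := ρ.comp j
  have hne : (Nat.card A : ℂ) ≠ 0 := by exact_mod_cast Nat.card_pos.ne'
  have hinv : Invertible (Nat.card A : ℂ) := invertibleOfNonzero hne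
  have h1 := Representation.card_inv_mul_sum_char_mul_char_eq_finrank σ ρA
  have h2 : ∑ g : A, ρA.character g * σ.character g⁻¹ ≠ 0 := by
    intro h0
    apply hovr
    rw [finsum_eq_sum_of_fintype]
    exact h0
  have h3 : Module.finrank ℂ (Representation.IntertwiningMap σ ρA) ≠ 0 := by
    intro h0
    rw [h0, Nat.cast_zero] at h1
    exact h2 ((mul_eq_zero.1 h1).resolve_left (inv_ne_zero hne))
  have h4 : Nontrivial (Representation.IntertwiningMap σ ρA) := by
    by_contra h
    rw [not_nontrivial_iff_subsingleton] at h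
    exact h3 Module.finrank_zero_of_subsingleton
  obtain ⟨f, hf⟩ := exists_ne (0 : Representation.IntertwiningMap σ ρA)
  have hf0 : f.toLinearMap ≠ 0 := by
    intro h
    apply hf
    apply Representation.IntertwiningMap.toLinearMap_injective
    exact h.trans rfl
  have hfx : ∀ x : A, f.toLinearMap ∘ₗ σ x = ρ (j x) ∘ₗ f.toLinearMap := fun x =>
    f.isIntertwining' x
  -- the scalars
  obtain ⟨c', hc', htr'⟩ := CLS_scalar A U σ hσ Z.toFinset (fun a h => by
    simp only [Set.mem_toFinset]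
    constructor
    · intro h5
      exact hZ (j a) h _ (by simp) h5
    · intro h5
      exact hZ (j a)⁻¹ _ h (by simp; group) h5)
  obtain ⟨c, hc, htr⟩ := CLS_scalar B V ρ hρ (Z.toFinset.image j) (fun b h => by
    simp only [Finset.mem_image, Set.mem_toFinset]
    constructor
    · rintro ⟨a, ha, rfl⟩
      obtain ⟨a', ha'⟩ := hnor.conj_mem (j a) ⟨a, rfl⟩ b
      exact ⟨a', hZ b a a' ha' ha, ha'⟩
    · rintro ⟨a, ha, hab⟩
      obtain ⟨a', ha'⟩ := hnor.conj_mem (j a) ⟨a, rfl⟩ b⁻¹
      refine ⟨a', hZ b⁻¹ a a' ha' ha, ?_⟩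
      rw [ha', hab]
      group)
  rw [Finset.sum_image (fun x _ y _ h => hj h)] at hc htr
  have hcc : c = c' := by
    have h5 : f.toLinearMap ∘ₗ (∑ x ∈ Z.toFinset, σ x : Module.End ℂ U) =
        (∑ x ∈ Z.toFinset, ρ (j x) : Module.End ℂ V) ∘ₗ f.toLinearMap := by
      refine LinearMap.ext fun u => ?_
      simp only [LinearMap.comp_apply, LinearMap.sum_apply, map_sum]
      refine Finset.sum_congr rfl fun x _ => ?_
      exact congrArg (fun g => g u) (hfx x)
    rw [hc, hc'] at h5
    have h6 : (c - c') • f.toLinearMap = 0 := by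
      refine LinearMap.ext fun u => ?_
      have h7 := congrArg (fun g => g u) h5
      simp only [LinearMap.comp_apply, LinearMap.smul_apply, Module.End.one_apply, map_smul] at h7
      rw [LinearMap.smul_apply, sub_smul, h7, sub_self]
      rfl
    rcases smul_eq_zero.1 h6 with h7 | h7
    · exact sub_eq_zero.1 h7
    · exact absurd h7 hf0
  rw [finsum_mem_eq_toFinset_sum, finsum_mem_eq_toFinset_sum, htr, htr', hcc]
  ring

end Pool.Agent.DD
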